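import Pool.Agent.Helper96.VH.Defs
import Pool.Agent.Helper96.SP.QPARU
import Pool.Agent.Helper18.EN.EDER

/-!
# The derivation of a tensor power induced by an even operator
-/

open CategoryTheory MonoidalCategory Limits BraidedCategory

universe u v w

namespace Pool.Agent.Helper18.VH

open Pool.Agent.TH90.AB Pool.Agent.TH90.Kim Pool.Agent.Helper96.Kim Pool.Agent.Helper96.SP
  Pool.Agent.Helper96.VH Pool.Agent.Helper18.EN

set_option linter.unusedSectionVars false

variable {𝒜 : Type u} [Category.{v} 𝒜] [MonoidalCategory 𝒜] [SymmetricCategory 𝒜]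
  [Preadditive 𝒜] [MonoidalPreadditive 𝒜] [Linear ℚ 𝒜] [MonoidalLinear ℚ 𝒜]
  [hdual : ∀ X : 𝒜, HasRightDual X] {K : Type w} [Field K] [CharZero K] {F : Realisation 𝒜 K}

/-- even operators at one position preserve the parity -/
theorem pos_par {M : 𝒜} {ι : Type} [Fintype ι] [DecidableEq ι] (b : Module.Basis ι K (F.V M))
    (A : F.V M →ₗ[K] F.V M) (hA : ∀ x, F.par M (A x) = A (F.par M x)) (n : ℕ) :
    ∀ (k : Fin n) (z : F.V (T M n)), F.par _ (pos b A n k z) = pos b A n k (F.par _ z) := by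
  induction n with
  | zero => exact fun k => k.elim0
  | succ n ih =>
    intro k z
    obtain ⟨m, y, x, rfl⟩ := F.exists_sum (X := T M n) (Y := M) z
    rw [map_sum, map_sum, map_sum, map_sum]
    refine Finset.sum_congr rfl fun i _ => ?_
    have e1 : F.par (T M (n + 1)) (F.ext (y i) (x i)) = F.ext (F.par _ (y i)) (F.par _ (x i)) :=
      F.par_ext _ _
    refine Fin.cases ?_ (fun j => ?_) k
    · have h1 := congrArg (F.par (T M (n + 1))) (pos_zero b A n (y i) (x i))
      refine h1.trans ((F.par_ext _ _).trans ?_)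
      rw [hA]
      exact ((congrArg (pos b A (n + 1) 0) e1).trans (pos_zero b A n _ _)).symm
    · have h1 := congrArg (F.par (T M (n + 1))) (pos_succ b A n j (y i) (x i))
      refine h1.trans ((F.par_ext _ _).trans ?_)
      rw [ih]
      exact ((congrArg (pos b A (n + 1) j.succ) e1).trans (pos_succ b A n j _ _)).symm

theorem der_unique {M : 𝒜} (y : F.V M →ₗ[K] F.V M) (n : ℕ)
    (E E' : F.V (T M n) →ₗ[K] F.V (T M n)) (h : IsDer F y n E) (h' : IsDer F y n E') :
    E = E' := by
  obtain ⟨d, b, δ, hδ, hb⟩ := PARUX.exists_basis F M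
  refine ext_wd (Y := T M n) b fun w => ?_
  rw [h, h']

theorem exists_der {M : 𝒜} {φ : Fam M} (hφ : PA φ) (y : F.V M →ₗ[K] F.V M) (hy : Ev F y) (n : ℕ) :
    ∃ E : F.V (T M n) →ₗ[K] F.V (T M n), IsDer F y n E ∧
      (∀ z : QS n, ∀ x, E (F.map (rh φ n z) x) = F.map (rh φ n z) (E x)) ∧ Ev F E := by
  obtain ⟨d, b, δ, hδ, hb⟩ := PARUX.exists_basis F M
  refine ⟨∑ k, pos b y n k, fun v => ?_, fun z x => ?_, fun x => ?_⟩
  · rw [LinearMap.sum_apply]
    exact Finset.sum_congr rfl fun k _ => pos_wd b y n k v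
  · have h1 : ∀ g : Equiv.Perm (Fin n),
        (∑ k, pos b y n k) (F.map (φ n g : T M n ⟶ T M n) x) =
          F.map (φ n g : T M n ⟶ T M n) ((∑ k, pos b y n k) x) := by
      intro g
      rw [LinearMap.sum_apply, LinearMap.sum_apply, map_sum]
      refine (Fintype.sum_equiv g _ _ fun k => ?_).symm
      exact pos_perm hφ b δ hδ hb y hy n g k x
    rw [WD.rh_eq, WD.map_sum', WD.map_sum', map_sum]
    refine Finset.sum_congr rfl fun g _ => ?_
    rw [F.map_smul, F.map_smul, _root_.map_smul, h1]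
  · rw [LinearMap.sum_apply, LinearMap.sum_apply, map_sum]
    exact Finset.sum_congr rfl fun k _ => pos_par b y hy n k x

end Pool.Agent.Helper18.VH
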